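import Pool.Agent.Lib.MP_b5021c_nt.IfaceG

/-!
# Row H3B: numerical contradiction, co-disjoint case
-/

namespace Pool.Agent.B5.H35

theorem h3b : H3bS := by
  intro V B hV
  have hb : 0 < ‖2 * Complex.I * V‖ := by
    have h1 : 2 * Complex.I * V ≠ 0 :=
      mul_ne_zero (mul_ne_zero two_ne_zero Complex.I_ne_zero) hV
    exact norm_pos_iff.mpr h1
  have hI : Complex.I * Complex.I = -1 := Complex.I_mul_I
  have hpar := parallelogram_law_with_norm ℝ (V - B) (2 * Complex.I * V)
  have e1 : V * (1 - Complex.I - Complex.I) + B * (Complex.I * Complex.I) =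
      V - B - 2 * Complex.I * V := by
    rw [hI]; ring
  have e2 : V * (1 - (-Complex.I) - (-Complex.I)) + B * ((-Complex.I) * (-Complex.I)) =
      V - B + 2 * Complex.I * V := by
    have : (-Complex.I) * (-Complex.I) = -1 := by rw [neg_mul_neg, hI]
    rw [this]; ring
  by_cases h : ‖V - B‖ < ‖V - B - 2 * Complex.I * V‖
  · exact ⟨Complex.I, Complex.I, by simp, by simp, by rw [e1]; exact h⟩
  · refine ⟨-Complex.I, -Complex.I, by simp, by simp, ?_⟩
    rw [e2]
    have h' := not_lt.mp h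
    have h0 : 0 ≤ ‖V - B - 2 * Complex.I * V‖ := norm_nonneg _
    have h1 : 0 ≤ ‖V - B‖ := norm_nonneg _
    have h2 : 0 ≤ ‖V - B + 2 * Complex.I * V‖ := norm_nonneg _
    by_contra h3
    have h3' := not_lt.mp h3
    nlinarith [mul_le_mul h3' h3' h2 h1, mul_le_mul h' h' h0 h1, mul_pos hb hb]

end Pool.Agent.B5.H35
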