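import Pool.Agent.Lib.MP_b5021c_nt.IfaceS1

/-!
# Board b5, stage 2, row S_ADJ (helper35)
-/

namespace Pool.Agent.B5.H35

open scoped LaurentPolynomial
open AddMonoidAlgebra

section

variable {O : Type} [CommRing O] [Coef O]

theorem evL_add (z : ℂ) (p q : RO O) : evL z (p + q) = evL z p + evL z q := by
  unfold evL
  rw [coeff_add, Finsupp.sum_add_index']
  · intro n; simp
  · intro n a b; rw [map_add, add_mul]

theorem evL_single (z : ℂ) (n : ℤ) (a : O) :
    evL z (AddMonoidAlgebra.single n a : RO O) = Coef.emb a * z ^ n := by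
  unfold evL
  rw [coeff_single, Finsupp.sum_single_index (by simp)]

theorem evL_zero (z : ℂ) : evL z (0 : RO O) = 0 := by
  unfold evL
  rw [coeff_zero, Finsupp.sum_zero_index]

theorem evL_C_mul (z : ℂ) (w : O) (p : RO O) :
    evL z (LaurentPolynomial.C w * p) = Coef.emb w * evL z p := by
  induction p using AddMonoidAlgebra.induction_linear with
  | zero => rw [mul_zero, evL_zero, mul_zero]
  | add f g hf hg => rw [mul_add, evL_add, evL_add, hf, hg, mul_add]
  | single n a =>
    rw [← LaurentPolynomial.single_eq_C, single_mul_single, zero_add, evL_single, evL_single,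
      map_mul, mul_assoc]

theorem mn_C_mul (w : O) (p q : RO O) :
    mn (LaurentPolynomial.C w * p) q = Coef.emb w * mn p q := by
  unfold mn
  have h : (fun z : ℂ => evL z (LaurentPolynomial.C w * p) / evL z q) =
      fun z => (Coef.emb w : ℂ) • (evL z p / evL z q) := by
    funext z
    rw [evL_C_mul, smul_eq_mul, mul_div_assoc]
  rw [h, Real.circleAverage_fun_smul, smul_eq_mul]

end

theorem adjsy : AdjSyS := by
  intro O _ _ _ _ e₁ e₂ hA
  obtain ⟨w, hw, hn, hr⟩ := hA
  have hww : Coef.conj w * w = 1 := by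
    apply emb_inj (O := O)
    rw [map_mul, Coef.emb_conj, map_one, mul_comm, Complex.mul_conj, Complex.normSq_eq_norm_sq, hn]
    norm_num
  refine ⟨⟨Coef.conj w, ?_, ?_, ?_⟩, ?_, ?_⟩
  · rw [hw, ← mul_assoc, ← map_mul, hww, map_one, one_mul]
  · rw [Coef.emb_conj, RCLike.norm_conj, hn]
  · rw [Coef.emb_conj, Complex.conj_re, hr]
  · intro h
    rw [h] at hw
    have h1 : (LaurentPolynomial.C w : RO O) = 1 := by
      have h2 : (LaurentPolynomial.C w : RO O) * (e₂ : RO O) = 1 * (e₂ : RO O) := by
        rw [← hw, one_mul]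
      exact mul_right_cancel₀ e₂.ne_zero h2
    have h3 : w = 1 := by
      have h4 := congrArg (fun F : RO O => F.coeff 0) h1
      simp only [← LaurentPolynomial.single_eq_C, coeff_single, Finsupp.single_eq_same] at h4
      rw [h4]
      exact coeff_one_zero
    rw [h3, map_one] at hr
    norm_num at hr
  · intro p q
    rw [hw, mul_assoc, mn_C_mul, norm_mul, hn, one_mul]

end Pool.Agent.B5.H35
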