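import Pool.Agent.Lib.MP_b5021c_nt.IfaceS1
import Pool.Agent.Lib.MP_b5021c_nt.B.H71.I2c

/-!
# Board b5, stage 2, rows S_QST, S_QRA (helper35)
-/

namespace Pool.Agent.B5.H35

open scoped LaurentPolynomial
open AddMonoidAlgebra Pool.Agent.B5.H71

theorem qst (h1 : I1S) (h2 : I2S) (h4 : FullS) (h5 : EvRS) (h6 : ZfinS)
    (h8 : UnitAS) : QstS := by
  intro O _ _ _ _ P L _ _ _ _ _ phi D S i0 eta h c n G fd l b j e sp hj
  obtain ⟨hSD, hS0, lam, hS, hp⟩ := fd.cc.ray
  have hposV := pos_cl (co phi i0) S h eta D lam hS hp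
  have hG : ∀ i, FullAt (lam.comp (incl (Ker (co phi i0)))) (G i) := fun i =>
    fd.full i _ hposV
  have hFU := full_U h4 l b j e sp hj _ hG
  obtain ⟨hX0, q', hq'⟩ := h1 O P L phi D S i0 eta h c n G fd l b j e sp hj
  have hq : Xl phi D i0 b j hj e =
      q' * ∏ i ∈ Finset.univ.erase l, res (Ker (co (phK phi (co phi i0)) j)) (G i) := by
    rw [hq', mul_comm]
  have hU0 : (∏ i ∈ Finset.univ.erase l, res (Ker (co (phK phi (co phi i0)) j)) (G i)) ≠ 0 := by
    intro h9
    exact hFU.1 (by rw [h9]; rfl)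
  have hq0 : q' ≠ 0 := by
    intro h9
    rw [h9, zero_mul] at hq
    exact hX0 hq
  have hc' : c * (G l).coeff 0 ≠ 0 := mul_ne_zero fd.c0 (fd.st l).1
  have hrec : q' * cst (rsh (c * (G l).coeff 0)) = sharp q' * cst (c * (G l).coeff 0) := by
    refine recip h8 h5 h6 (co phi i0) S h eta D (fun a ha => fd.cc.dd.bin a ha i0)
      fd.cc.dd.st.1 hSD fd.cc.dd.un (co (phK phi (co phi i0)) j) b hj e _
      (∏ i ∈ Finset.univ.erase l, G i) _ q' ?_ (cl_prod l b j e sp hj) hU0 hq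
    rw [fd.eq, ← Finset.mul_prod_erase Finset.univ G (Finset.mem_univ l), cst_mul]
    conv_lhs => rw [sp.eq]
    ring
  refine ⟨q', hq0, hq, hrec, ?_, ?_⟩
  · intro a ha h9
    have h10 := congrArg (fun F : AO O (Ker (co (phK phi (co phi i0)) j)) => F.coeff a) hrec
    simp only [cst, coeff_mul_single_zero] at h10
    rw [sharp_coeff', h9, map_zero rsh, zero_mul] at h10
    exact (mul_ne_zero ha (rsh_ne h5 h6 _ hc')) h10
  · intro a ha j' hj' hbj'
    exact h2 O P L phi D S i0 eta h c n G fd l b j e sp hj q' hq a ha j' hj' hbj'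

theorem qra : QraS := by
  intro O _ _ _ _ P L _ _ _ _ _ phi D S i0 eta h c n G fd l b j e sp hj eta'
  have hdec := decomp (co phi i0) S h D (fun a ha => fd.cc.dd.bin a ha i0)
  have hV0 : cl (co (phK phi (co phi i0)) j) b hj e (cl (co phi i0) S h eta D) = 0 := by
    rw [fd.eq, map_mul, map_prod]
    have h1 : cl (co (phK phi (co phi i0)) j) b hj e (G l) = 0 := by
      rw [sp.eq, map_mul, cl_factor, mul_zero]
    rw [Finset.prod_eq_zero (Finset.mem_univ l) h1, mul_zero]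
  rw [Xl]
  generalize res (Ker (co phi i0)) D = X at hdec ⊢
  generalize res (Ker (co phi i0)) (single (-S) 1 * D) = Y at hdec
  have hV : ∀ t : (RO O)ˣ, cl (co phi i0) S h t D = X + cst (t : RO O) * Y := by
    intro t
    conv_lhs => rw [hdec]
    rw [map_add, map_mul, cl_em, cl_em, cl_single, prj_self, h, zpow_one, one_mul]
    rfl
  rw [hV, map_add, map_mul, cl_cst] at hV0
  rw [hV, map_add, map_mul, cl_cst]
  have h3 : (cst ((eta⁻¹ : (RO O)ˣ) : RO O) : AO O (Ker (co (phK phi (co phi i0)) j))) *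
      cst (eta : RO O) = 1 := by rw [← cst_mul, Units.inv_mul, cst_one]
  have h4 : (cst (1 - (eta' : RO O) * ((eta⁻¹ : (RO O)ˣ) : RO O)) :
      AO O (Ker (co (phK phi (co phi i0)) j))) =
      1 - cst (eta' : RO O) * cst ((eta⁻¹ : (RO O)ˣ) : RO O) := by
    rw [← cst_mul, ← cst_one, cst, cst, cst, ← single_sub]
  rw [h4]
  linear_combination (cst (eta' : RO O) * cst ((eta⁻¹ : (RO O)ˣ) : RO O) :
      AO O (Ker (co (phK phi (co phi i0)) j))) * hV0 -
    (cst (eta' : RO O) * cl (co (phK phi (co phi i0)) j) b hj e Y) * h3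

end Pool.Agent.B5.H35
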